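import Pool.Agent.helper64.QF.Spec

/-!
# Project pq: (MP_b9b9c0_an), module CLS: the quantitative form of the class
-/

set_option autoImplicit false

namespace Pool.Agent.helper64.QF

open Metric MeasureTheory Set Filter Topology
open Pool.Agent.helper37.PR

variable {n : ℕ}

theorem CLS_deriv (A : E n →L[ℂ] E n) (x : E n) (t : ℝ) :
    HasDerivAt (fun s : ℝ => (NormedSpace.exp ((s : ℂ) • A)) x)
      ((NormedSpace.exp ((t : ℂ) • A)) (A x)) t := by
  have h1 := hasDerivAt_exp_smul_const (𝕂 := ℂ) A ((t : ℝ) : ℂ)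
  have h2 : HasDerivAt (fun s : ℝ => ((s : ℝ) : ℂ)) 1 t := Complex.ofRealCLM.hasDerivAt
  have h3 := h1.scomp t h2
  rw [one_smul] at h3
  have h4 := ((ContinuousLinearMap.apply ℂ (E n) x).restrictScalars ℝ).hasFDerivAt.comp_hasDerivAt
    t h3
  exact h4

/-- growth at most `e^(κ t)` of the orbit of `x` -/
def CLS_G (A : E n →L[ℂ] E n) (κ : ℝ) (x : E n) : Prop :=
  ∃ C : ℝ, ∀ t : ℝ, 0 ≤ t → ‖(NormedSpace.exp ((t : ℂ) • A)) x‖ ≤ C * Real.exp (κ * t)

theorem CLS_step (A : E n →L[ℂ] E n) (κ : ℝ) (l : ℂ) (hl : l.re < κ) (x : E n)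
    (h : CLS_G A κ (A x - l • x)) : CLS_G A κ x := by
  obtain ⟨C, hC⟩ := h
  have hC0 : 0 ≤ C := by
    have h0 := hC 0 le_rfl
    rw [mul_zero, Real.exp_zero, mul_one] at h0
    exact (norm_nonneg _).trans h0
  have hδ : 0 < κ - l.re := sub_pos.2 hl
  set δ : ℝ := κ - l.re with hδd
  refine ⟨‖x‖ + C / δ, fun t ht => ?_⟩
  have hnexp : ∀ s : ℝ, ‖Complex.exp (-(l * (s : ℂ)))‖ = Real.exp (-(l.re * s)) := by
    intro s
    rw [Complex.norm_exp, Complex.neg_re, Complex.mul_re, Complex.ofReal_re, Complex.ofReal_im,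
      mul_zero, sub_zero]
  have hf : ∀ s : ℝ, HasDerivAt (fun s : ℝ => Complex.exp (-(l * (s : ℂ))) •
      (NormedSpace.exp ((s : ℂ) • A)) x) (Complex.exp (-(l * (s : ℂ))) •
      (NormedSpace.exp ((s : ℂ) • A)) (A x - l • x)) s := by
    intro s
    have e1 : HasDerivAt (fun s : ℝ => ((s : ℝ) : ℂ)) 1 s := Complex.ofRealCLM.hasDerivAt
    have e2 : HasDerivAt (fun s : ℝ => Complex.exp (-(l * (s : ℂ))))
        (Complex.exp (-(l * (s : ℂ))) * (-(l * 1))) s := ((e1.const_mul l).neg).cexp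
    have e3 := e2.smul (CLS_deriv A x s)
    have e4 : Complex.exp (-(l * (s : ℂ))) • (NormedSpace.exp ((s : ℂ) • A)) (A x) +
        (Complex.exp (-(l * (s : ℂ))) * (-(l * 1))) • (NormedSpace.exp ((s : ℂ) • A)) x =
        Complex.exp (-(l * (s : ℂ))) • (NormedSpace.exp ((s : ℂ) • A)) (A x - l • x) := by
      rw [map_sub, map_smul, smul_sub, smul_smul, mul_one, mul_neg, neg_smul]
      abel
    rw [e4] at e3
    exact e3
  have hB : ∀ s : ℝ, HasDerivAt (fun s : ℝ => ‖x‖ + C / δ * Real.exp (δ * s))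
      (C * Real.exp (δ * s)) s := by
    intro s
    have e1 := (((hasDerivAt_id s).const_mul δ).exp.const_mul (C / δ)).const_add ‖x‖
    have e2 : C / δ * (Real.exp (δ * id s) * (δ * 1)) = C * Real.exp (δ * s) := by
      rw [id_eq]
      field_simp
    rw [e2] at e1
    exact e1
  have key := image_norm_le_of_norm_deriv_right_le_deriv_boundary (a := 0) (b := t)
    (f := fun s : ℝ => Complex.exp (-(l * (s : ℂ))) • (NormedSpace.exp ((s : ℂ) • A)) x)
    (f' := fun s : ℝ => Complex.exp (-(l * (s : ℂ))) •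
      (NormedSpace.exp ((s : ℂ) • A)) (A x - l • x))
    (fun s _ => (hf s).continuousAt.continuousWithinAt)
    (fun s _ => (hf s).hasDerivWithinAt)
    (B := fun s : ℝ => ‖x‖ + C / δ * Real.exp (δ * s)) (B' := fun s : ℝ => C * Real.exp (δ * s))
    (by
      have e0 : ((0 : ℝ) : ℂ) • A = 0 := by
        rw [Complex.ofReal_zero]
        exact zero_smul ℂ A
      have e1 : (NormedSpace.exp (((0 : ℝ) : ℂ) • A)) x = x := by
        rw [e0, NormedSpace.exp_zero]
        rfl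
      have e2 : Complex.exp (-(l * ((0 : ℝ) : ℂ))) = 1 := by
        rw [Complex.ofReal_zero, mul_zero, neg_zero, Complex.exp_zero]
      have e3 : Real.exp (δ * 0) = 1 := by rw [mul_zero, Real.exp_zero]
      have e4 : 0 ≤ C / δ := by positivity
      change ‖Complex.exp (-(l * ((0 : ℝ) : ℂ))) • (NormedSpace.exp (((0 : ℝ) : ℂ) • A)) x‖ ≤
        ‖x‖ + C / δ * Real.exp (δ * 0)
      rw [e1, e2, e3, one_smul, mul_one]
      linarith) hB
    (by
      intro s hs
      rw [norm_smul, hnexp]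
      have e1 := hC s hs.1
      calc Real.exp (-(l.re * s)) * ‖(NormedSpace.exp ((s : ℂ) • A)) (A x - l • x)‖
          ≤ Real.exp (-(l.re * s)) * (C * Real.exp (κ * s)) :=
            mul_le_mul_of_nonneg_left e1 (Real.exp_pos _).le
        _ = C * (Real.exp (-(l.re * s)) * Real.exp (κ * s)) := by ring
        _ = C * Real.exp (δ * s) := by
            rw [← Real.exp_add]
            congr 2
            rw [hδd]
            ring)
    (right_mem_Icc.2 ht)
  rw [norm_smul, hnexp] at key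
  have h1 : ‖(NormedSpace.exp ((t : ℂ) • A)) x‖ =
      Real.exp (l.re * t) * (Real.exp (-(l.re * t)) * ‖(NormedSpace.exp ((t : ℂ) • A)) x‖) := by
    rw [← mul_assoc, ← Real.exp_add, add_neg_cancel, Real.exp_zero, one_mul]
  rw [h1]
  have h2 : Real.exp (l.re * t) ≤ Real.exp (κ * t) := by
    apply Real.exp_le_exp.2
    exact mul_le_mul_of_nonneg_right hl.le ht
  have h3 : Real.exp (l.re * t) * Real.exp (δ * t) = Real.exp (κ * t) := by
    rw [← Real.exp_add]
    congr 1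
    rw [hδd]
    ring
  calc Real.exp (l.re * t) * (Real.exp (-(l.re * t)) * ‖(NormedSpace.exp ((t : ℂ) • A)) x‖)
      ≤ Real.exp (l.re * t) * (‖x‖ + C / δ * Real.exp (δ * t)) :=
        mul_le_mul_of_nonneg_left key (Real.exp_pos _).le
    _ = ‖x‖ * Real.exp (l.re * t) + C / δ * (Real.exp (l.re * t) * Real.exp (δ * t)) := by ring
    _ ≤ ‖x‖ * Real.exp (κ * t) + C / δ * Real.exp (κ * t) := by
        rw [h3]
        have := mul_le_mul_of_nonneg_left h2 (norm_nonneg x)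
        linarith
    _ = (‖x‖ + C / δ) * Real.exp (κ * t) := by ring

theorem CLS_pow (A : E n →L[ℂ] E n) (κ : ℝ) (l : ℂ) (hl : l.re < κ) (k : ℕ) :
    ∀ x : E n, (((A : E n →ₗ[ℂ] E n) - l • (1 : Module.End ℂ (E n))) ^ k) x = 0 →
      CLS_G A κ x := by
  induction k with
  | zero =>
    intro x hx
    rw [pow_zero, Module.End.one_apply] at hx
    refine ⟨0, fun t _ => ?_⟩
    rw [hx, map_zero, norm_zero, zero_mul]
  | succ k ih =>
    intro x hx
    apply CLS_step A κ l hl x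
    apply ih
    rw [pow_succ, Module.End.mul_apply] at hx
    exact hx

/-- the submodule of the vectors with growth at most `e^(κ t)` -/
def CLS_W (A : E n →L[ℂ] E n) (κ : ℝ) : Submodule ℂ (E n) where
  carrier := {x | CLS_G A κ x}
  zero_mem' := ⟨0, fun t _ => by rw [map_zero, norm_zero, zero_mul]⟩
  add_mem' := by
    rintro x y ⟨C, hC⟩ ⟨D, hD⟩
    refine ⟨C + D, fun t ht => ?_⟩
    rw [map_add, add_mul]
    exact (norm_add_le _ _).trans (add_le_add (hC t ht) (hD t ht))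
  smul_mem' := by
    rintro c x ⟨C, hC⟩
    refine ⟨‖c‖ * C, fun t ht => ?_⟩
    rw [map_smul, norm_smul, mul_assoc]
    exact mul_le_mul_of_nonneg_left (hC t ht) (norm_nonneg _)

theorem CLS_top (A : E n →L[ℂ] E n) (κ : ℝ)
    (h : ∀ (l : ℂ) (z : E n), z ≠ 0 → A z = l • z → l.re < κ) : CLS_W A κ = ⊤ := by
  rw [eq_top_iff, ← Module.End.iSup_maxGenEigenspace_eq_top (A : Module.End ℂ (E n))]
  apply iSup_le
  intro l x hx
  rw [Module.End.mem_maxGenEigenspace] at hx
  obtain ⟨k, hk⟩ := hx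
  by_cases hl : ∃ z : E n, z ≠ 0 ∧ A z = l • z
  · obtain ⟨z, hz, hzl⟩ := hl
    exact CLS_pow A κ l (h l z hz hzl) k x hk
  · have hinj : ∀ (k : ℕ) (x : E n),
        (((A : E n →ₗ[ℂ] E n) - l • (1 : Module.End ℂ (E n))) ^ k) x = 0 → x = 0 := by
      intro k
      induction k with
      | zero =>
        intro x hx
        rw [pow_zero, Module.End.one_apply] at hx
        exact hx
      | succ k ih =>
        intro x hx
        rw [pow_succ, Module.End.mul_apply] at hx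
        have h1 := ih _ hx
        by_contra hx0
        apply hl
        refine ⟨x, hx0, ?_⟩
        exact sub_eq_zero.1 h1
    have h1 := hinj k x hk
    rw [h1]
    exact (CLS_W A κ).zero_mem

theorem CLS_grow (A : E n →L[ℂ] E n) (κ : ℝ)
    (h : ∀ (l : ℂ) (z : E n), z ≠ 0 → A z = l • z → l.re < κ) :
    ∃ C : ℝ, 1 ≤ C ∧ ∀ t : ℝ, 0 ≤ t →
      ‖NormedSpace.exp ((t : ℂ) • A)‖ ≤ C * Real.exp (κ * t) := by
  have hall : ∀ x : E n, CLS_G A κ x := by
    intro x
    have h1 : x ∈ CLS_W A κ := by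
      rw [CLS_top A κ h]
      exact Submodule.mem_top
    exact h1
  have hb : ∀ i : Fin n, ∃ C : ℝ, ∀ t : ℝ, 0 ≤ t →
      ‖(NormedSpace.exp ((t : ℂ) • A)) (EuclideanSpace.basisFun (Fin n) ℂ i)‖ ≤
        C * Real.exp (κ * t) := fun i => hall _
  choose C hC using hb
  have hC0 : ∀ i, 0 ≤ C i := by
    intro i
    have h0 := hC i 0 le_rfl
    rw [mul_zero, Real.exp_zero, mul_one] at h0
    exact (norm_nonneg _).trans h0
  refine ⟨max 1 (∑ i, C i), le_max_left _ _, fun t ht => ?_⟩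
  apply ContinuousLinearMap.opNorm_le_bound _ (by positivity)
  intro x
  have h1 : x = ∑ i, x i • EuclideanSpace.basisFun (Fin n) ℂ i := by
    have h0 := (EuclideanSpace.basisFun (Fin n) ℂ).sum_repr x
    simp only [EuclideanSpace.basisFun_repr] at h0
    exact h0.symm
  have h2 : ‖(NormedSpace.exp ((t : ℂ) • A)) x‖ ≤ ∑ i, ‖x‖ * (C i * Real.exp (κ * t)) := by
    conv_lhs => rw [h1]
    rw [map_sum]
    refine (norm_sum_le _ _).trans (Finset.sum_le_sum fun i _ => ?_)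
    rw [map_smul, norm_smul]
    exact mul_le_mul (PiLp.norm_apply_le x i) (hC i t ht) (norm_nonneg _)
      (norm_nonneg _)
  refine h2.trans ?_
  rw [← Finset.mul_sum, ← Finset.sum_mul, mul_comm]
  apply mul_le_mul_of_nonneg_right _ (norm_nonneg x)
  exact mul_le_mul_of_nonneg_right (le_max_right _ _) (Real.exp_pos _).le

theorem CLS_zero (A : E 0 →L[ℂ] E 0) : ¬ kPlus A < 2 * mNum A := by
  have h1 : {x : ℝ | ∃ z : E 0, ‖z‖ = 1 ∧ x = (inner ℂ z (A z)).re} = ∅ := by
    rw [eq_empty_iff_forall_notMem]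
    rintro x ⟨z, hz, -⟩
    have : z = 0 := Subsingleton.elim _ _
    rw [this, norm_zero] at hz
    exact zero_ne_one hz
  have h2 : {x : ℝ | ∃ l : ℂ, (∃ z : E 0, z ≠ 0 ∧ A z = l • z) ∧ x = l.re} = ∅ := by
    rw [eq_empty_iff_forall_notMem]
    rintro x ⟨l, ⟨z, hz, -⟩, -⟩
    exact hz (Subsingleton.elim _ _)
  unfold kPlus mNum
  rw [h1, h2, Real.sSup_empty, Real.sInf_empty, mul_zero]
  exact lt_irrefl _

theorem CLS : CLS_stmt := by
  intro n A hA
  rcases Nat.eq_zero_or_pos n with rfl | hn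
  · exact absurd hA (CLS_zero A)
  have : Nonempty (Fin n) := ⟨⟨0, hn⟩⟩
  have : Nontrivial (E n) := by
    refine ⟨EuclideanSpace.basisFun (Fin n) ℂ ⟨0, hn⟩, 0, ?_⟩
    intro h0
    have h1 := (EuclideanSpace.basisFun (Fin n) ℂ).norm_eq_one ⟨0, hn⟩
    rw [h0, norm_zero] at h1
    exact zero_ne_one h1
  obtain ⟨x0, hx0, hmin⟩ := exists_min A
  have hm : mNum A = (inner ℂ x0 (A x0)).re := mNum_eq hx0 rfl hmin
  have hmin' : ∀ z : E n, ‖z‖ = 1 → mNum A ≤ (inner ℂ z (A z)).re := by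
    intro z hz
    rw [hm]
    exact hmin z hz
  have hbdd : BddAbove {x : ℝ | ∃ l : ℂ, (∃ z : E n, z ≠ 0 ∧ A z = l • z) ∧ x = l.re} := by
    refine ⟨‖A‖, ?_⟩
    rintro x ⟨l, ⟨z, hz, hzl⟩, rfl⟩
    have hzn : 0 < ‖z‖ := norm_pos_iff.2 hz
    have h1 : ‖l‖ * ‖z‖ ≤ ‖A‖ * ‖z‖ := by
      rw [← norm_smul, ← hzl]
      exact A.le_opNorm z
    have h2 := le_of_mul_le_mul_right h1 hzn
    exact (Complex.re_le_norm l).trans h2
  have hle : ∀ (l : ℂ) (z : E n), z ≠ 0 → A z = l • z → l.re ≤ kPlus A := by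
    intro l z hz hzl
    exact le_csSup hbdd ⟨l, ⟨z, hz, hzl⟩, rfl⟩
  obtain ⟨e, -, he, l, hl⟩ := exists_eigenvector_in (A := A) (⊤ : Submodule ℂ (E n)) top_ne_bot
    (fun x _ => Submodule.mem_top)
  have he0 : e ≠ 0 := by
    intro h0
    rw [h0, norm_zero] at he
    exact zero_ne_one he
  have h1 : mNum A ≤ l.re := by
    have h2 := hmin' e he
    rwa [eig_re e he hl] at h2
  have h2 := hle l e he0 hl
  have hm0 : 0 < mNum A := by linarith
  have hκ : kPlus A < (kPlus A + 2 * mNum A) / 2 := by linarith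
  obtain ⟨C, hC1, hC⟩ := CLS_grow A ((kPlus A + 2 * mNum A) / 2)
    (fun l z hz hzl => (hle l z hz hzl).trans_lt hκ)
  exact ⟨mNum A, (kPlus A + 2 * mNum A) / 2, C, hm0, fun x => min_homog hmin' x, by linarith,
    by linarith, hC1, hC⟩

end Pool.Agent.helper64.QF
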